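import Pool.Agent.Helper456.HC.Main
import Pool.Agent.Helper456.HD.Final

set_option autoImplicit false

/-!
# MP_2c0b9b_co: large sets in the central range
-/

namespace Pool.Agent.Results.MP_2c0b9b_co.CentralRange

open Finset

/-- A large set `LS[N](t,k,v)`: a colouring `f` of the `k`-subsets of a `v`-set with `N` colours
such that every `t`-subset lies in exactly `C(v-t,k-t)/N` blocks of each colour. -/
def LargeSet (N t k v : ℕ) : Prop :=
  ∃ f : Finset (Fin v) → Fin N, ∀ j : Fin N, ∀ T : Finset (Fin v), T.card = t →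
    N * ((powersetCard k (univ : Finset (Fin v))).filter (fun B => f B = j ∧ T ⊆ B)).card
      = (v - t).choose (k - t)

/-- The divisibility conditions are necessary. -/
lemma dvd_of_largeSet {N t k v : ℕ} (hN : 1 ≤ N) (htk : t ≤ k) (hkv : k ≤ v)
    (h : LargeSet N t k v) : ∀ i, i ≤ t → N ∣ (v - i).choose (k - i) := by
  obtain ⟨f, hf⟩ := h
  intro i hi
  set j : Fin N := ⟨0, hN⟩
  set P := powersetCard k (univ : Finset (Fin v)) with hP
  set w : Finset (Fin v) → ℤ := fun S => (N : ℤ) * (if f S = j then 1 else 0) - 1 with hw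
  have hsum : ∀ T : Finset (Fin v), T.card ≤ k →
      ∑ S ∈ P.filter (fun S => T ⊆ S), w S
        = (N : ℤ) * ((P.filter (fun S => f S = j ∧ T ⊆ S)).card : ℤ)
          - ((v - T.card).choose (k - T.card) : ℕ) := by
    intro T hT
    have h1 := Pool.Agent.Helper456.HC.card_sup (univ : Finset (Fin v)) T k
      (Finset.subset_univ T) hT
    rw [Finset.card_univ, Fintype.card_fin] at h1
    rw [Finset.sum_sub_distrib, ← Finset.mul_sum, Finset.sum_boole, Finset.sum_const,
      Finset.filter_filter, hP, h1]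
    have e : (powersetCard k (univ : Finset (Fin v))).filter (fun S => T ⊆ S ∧ f S = j)
        = (powersetCard k (univ : Finset (Fin v))).filter (fun S => f S = j ∧ T ⊆ S) :=
      Finset.filter_congr fun S _ => and_comm
    rw [e]
    simp
  have hnull : ∀ T ∈ powersetCard t (univ : Finset (Fin v)),
      ∑ S ∈ P.filter (fun S => T ⊆ S), w S = 0 := by
    intro T hT
    rw [Finset.mem_powersetCard] at hT
    rw [hsum T (by omega), hT.2, ← hf j T hT.2]
    push_cast
    ring
  obtain ⟨I, -, hI⟩ := Finset.exists_subset_card_eq (s := (Finset.univ : Finset (Fin v)))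
    (n := i) (by rw [Finset.card_univ, Fintype.card_fin]; omega)
  have h1 := Pool.Agent.Helper456.HC.null_of_null t k htk (univ : Finset (Fin v)) w hnull I
    (by omega)
  rw [hsum I (by omega), hI] at h1
  refine ⟨(P.filter (fun S => f S = j ∧ I ⊆ S)).card, ?_⟩
  have h2 : ((N * (P.filter (fun S => f S = j ∧ I ⊆ S)).card : ℕ) : ℤ)
      = (((v - i).choose (k - i) : ℕ) : ℤ) := by
    push_cast
    push_cast at h1
    linarith
  exact_mod_cast h2.symm

/-- For every number `N ≥ 1` of colours and every strength `t` there is `v₀` such that for all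
`v ≥ v₀` and all `k` with `4 t + 1 ≤ k ≤ v - 4 t - 1` a large set `LS[N](t,k,v)` exists if and
only if `N` divides `C(v-i,k-i)` for all `i ≤ t`. -/
theorem result : ∀ N t : ℕ, 1 ≤ N → ∃ v₀ : ℕ, ∀ v ≥ v₀, ∀ k : ℕ, 4 * t + 1 ≤ k →
    k + 4 * t + 1 ≤ v →
    (LargeSet N t k v ↔ ∀ i, i ≤ t → N ∣ (v - i).choose (k - i)) := by
  intro N t hN
  obtain ⟨v₀, hv₀⟩ := Pool.Agent.Helper456.HD.asymN N t hN
  exact ⟨v₀, fun v hv k hk hkv =>
    ⟨dvd_of_largeSet hN (by omega) (by omega), hv₀ v hv k hk hkv⟩⟩

end Pool.Agent.Results.MP_2c0b9b_co.CentralRange
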